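import Pool.Agent.Q27.Hk.Gam

/-!
# The element `X^μ_N` is central in `e_μ H(S_n) e_μ`

The definitions below are those of the problem file, with `n = m + 1`; the points on which `S_n`
acts are numbered `0, …, m`, and the generator `T_i` of the problem (`1 ≤ i ≤ m`) is `T ⟨i - 1, _⟩`.
-/

set_option autoImplicit false

namespace Pool.Agent.Results.MP_613bd6_al.Central

open Equiv Finset

/-- The field `ℂ(q)`. -/
abbrev K := RatFunc ℂ

/-- The indeterminate `q`. -/
noncomputable abbrev q : K := RatFunc.X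

variable {m : ℕ}

/-- The adjacent transpositions of `S_{m+1}`. -/
def s (i : Fin m) : Perm (Fin (m + 1)) := swap i.castSucc i.succ

/-- The defining relations of the Hecke algebra `H(S_{m+1})`. -/
inductive HRel (m : ℕ) : FreeAlgebra K (Fin m) → FreeAlgebra K (Fin m) → Prop
  | braid (i j : Fin m) (h : j.val = i.val + 1) :
      HRel m (FreeAlgebra.ι K i * FreeAlgebra.ι K j * FreeAlgebra.ι K i)
        (FreeAlgebra.ι K j * FreeAlgebra.ι K i * FreeAlgebra.ι K j)
  | comm (i j : Fin m) (h : i.val + 1 < j.val) :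
      HRel m (FreeAlgebra.ι K i * FreeAlgebra.ι K j) (FreeAlgebra.ι K j * FreeAlgebra.ι K i)
  | quad (i : Fin m) :
      HRel m ((FreeAlgebra.ι K i - algebraMap K _ q) * (FreeAlgebra.ι K i + algebraMap K _ q⁻¹)) 0

/-- The Hecke algebra `H(S_{m+1})`. -/
abbrev H (m : ℕ) := RingQuot (HRel m)

/-- The generators. -/
noncomputable def T (i : Fin m) : H m := RingQuot.mkAlgHom K (HRel m) (FreeAlgebra.ι K i)

/-- The permutation of a word. -/
def perm (ω : List (Fin m)) : Perm (Fin (m + 1)) := (ω.map s).prod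

/-- The Coxeter length. -/
noncomputable def len (w : Perm (Fin (m + 1))) : ℕ :=
  sInf {k | ∃ ω : List (Fin m), perm ω = w ∧ ω.length = k}

/-- Reduced words of a permutation. -/
def IsReduced (ω : List (Fin m)) (w : Perm (Fin (m + 1))) : Prop := perm ω = w ∧ ω.length = len w

/-- The generator `T_i` with the numbering `1 ≤ i ≤ m` of the problem. -/
noncomputable def Tn (m : ℕ) (i : ℕ) : H m := if h : 1 ≤ i ∧ i ≤ m then T ⟨i - 1, by omega⟩ else 1

open Classical in
/-- The element `T_w` of `H(S_{m+1})` for `w ∈ S_{N+1}`, `N ≤ m`, where `S_{N+1}` permutes the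
first `N + 1` points: the product of the generators along a chosen reduced word of `w`. -/
noncomputable def Tw (m : ℕ) {N : ℕ} (w : Perm (Fin (N + 1))) : H m :=
  if h : ∃ ω : List (Fin N), IsReduced ω w then (h.choose.map fun i => Tn m (i.val + 1)).prod
  else 0

/-- The number `m_k = μ_1 + … + μ_k`. -/
def ms {N : ℕ} (μ : Fin (N + 1) → ℕ) (k : ℕ) : ℕ :=
  ∑ l ∈ univ.filter (fun l : Fin (N + 1) => l.val < k), μ l

/-- The set `J = {1, …, n - 1} ∖ {m_1, …, m_N}` (the generator `i + 1` has the number `i`). -/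
def J (m : ℕ) {N : ℕ} (μ : Fin (N + 1) → ℕ) : Set (Fin m) :=
  {i | ∀ k, 1 ≤ k → k ≤ N → i.val + 1 ≠ ms μ k}

/-- The subgroup `S_μ`. -/
def Smu (m : ℕ) {N : ℕ} (μ : Fin (N + 1) → ℕ) : Subgroup (Perm (Fin (m + 1))) :=
  Subgroup.closure (s '' J m μ)

open Classical in
/-- The idempotent `e_μ`. -/
noncomputable def e (m : ℕ) {N : ℕ} (μ : Fin (N + 1) → ℕ) : H m :=
  (∑ w ∈ univ.filter (fun w => w ∈ Smu m μ), q ^ (2 * len w))⁻¹ •
    ∑ w ∈ univ.filter (fun w => w ∈ Smu m μ), q ^ len w • Tw m w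

/-- The element `T_{γ_μ}`, the product over `k = 1, …, N` of `T_{m_k} T_{m_k - 1} ⋯ T_{k + 1}`. -/
noncomputable def Tgamma (m : ℕ) {N : ℕ} (μ : Fin (N + 1) → ℕ) : H m :=
  ((List.range' 1 N).map fun k =>
    ((List.range' (k + 1) (ms μ k - k)).reverse.map (Tn m)).prod).prod

/-- The antisymmetriser `A_{N+1}` of `H(S_{N+1})`, viewed in `H(S_{m+1})`. -/
noncomputable def anti (m N : ℕ) : H m :=
  ∑ w : Perm (Fin (N + 1)),
    ((-1) ^ len w * q ^ (((N * (N + 1) / 2 : ℕ) : ℤ) - (len w : ℤ))) • Tw m w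

/-- The element `X^μ_N`. -/
noncomputable def X (m : ℕ) {N : ℕ} (μ : Fin (N + 1) → ℕ) : H m :=
  e m μ * Tgamma m μ * anti m N * Ring.inverse (Tgamma m μ) * e m μ

/-! ### Proofs -/

theorem rel (m : ℕ) : Q27.Hk.Rel q (T : Fin m → H m) where
  braid i j h := by
    have := RingQuot.mkAlgHom_rel K (HRel.braid i j h)
    rw [map_mul, map_mul, map_mul, map_mul] at this
    exact this
  comm i j h := by
    have := RingQuot.mkAlgHom_rel K (HRel.comm i j h)
    rw [map_mul, map_mul] at this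
    exact this
  quad i := by
    have h1 := RingQuot.mkAlgHom_rel K (HRel.quad i)
    rw [map_mul, map_sub, map_add, AlgHom.commutes, AlgHom.commutes, map_zero] at h1
    change (T i - algebraMap K (H m) q) * (T i + algebraMap K (H m) q⁻¹) = 0 at h1
    have h2 : (algebraMap K (H m) q) * algebraMap K (H m) q⁻¹ = 1 := by
      rw [← map_mul, mul_inv_cancel₀ RatFunc.X_ne_zero, map_one]
    rw [sub_mul, mul_add, mul_add, h2, ← Algebra.commutes q⁻¹] at h1
    rw [Algebra.smul_def, map_sub, sub_mul]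
    generalize algebraMap K (H m) q * T i = x at *
    generalize algebraMap K (H m) q⁻¹ * T i = y at *
    have h3 : T i * T i = T i * T i + y - (x + 1) + (1 + (x - y)) := by abel
    rw [h3, h1, zero_add]

theorem rel' {N : ℕ} (h : N ≤ m) :
    Q27.Hk.Rel q (fun i : Fin N => (T (Fin.castLE h i) : H m)) where
  braid _ _ hij := (rel m).braid _ _ hij
  comm _ _ hij := (rel m).comm _ _ hij
  quad _ := (rel m).quad _

theorem le_of_sum {N : ℕ} {μ : Fin (N + 1) → ℕ} (hμ : ∀ k, 1 ≤ μ k) (hm : ∑ k, μ k = m + 1) :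
    N ≤ m := by
  have h1 : ∑ _k : Fin (N + 1), 1 ≤ ∑ k, μ k := sum_le_sum (fun k _ => hμ k)
  rw [hm, sum_const, card_univ, Fintype.card_fin, smul_eq_mul, mul_one] at h1
  omega

theorem perm_eq (ω : List (Fin m)) : perm ω = Q27.Hk.wp ω := rfl

theorem len_eq (w : Perm (Fin (m + 1))) : len w = Q27.Hk.inv w := by
  apply le_antisymm
  · apply Nat.sInf_le
    exact Q27.Hk.exists_word w
  · have h1 : {k | ∃ ω : List (Fin m), perm ω = w ∧ ω.length = k}.Nonempty :=
      ⟨_, Q27.Hk.exists_word w⟩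
    obtain ⟨ω, h2, h3⟩ := Nat.sInf_mem h1
    change ω.length = len w at h3
    rw [← h3, ← h2]
    exact Q27.Hk.inv_wp_le ω

theorem Tn_succ (i : Fin m) : Tn m (i.val + 1) = T i := by
  unfold Tn
  rw [dif_pos ⟨by omega, i.isLt⟩]
  rfl

theorem word_eq {N : ℕ} (h : N ≤ m) {ω : List (Fin N)} {w : Perm (Fin (N + 1))}
    (hω : IsReduced ω w) :
    (ω.map fun i => Tn m (i.val + 1)).prod = Q27.Hk.T (fun i => T (Fin.castLE h i)) w := by
  obtain ⟨h1, h2⟩ := hω
  rw [len_eq] at h2
  have h3 := (rel' h).T_word (ω := ω) (by rw [h2, ← h1]; rfl)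
  rw [← h1]
  refine Eq.trans ?_ h3.symm
  congr 1
  apply List.map_congr_left
  intro i _
  exact Tn_succ (Fin.castLE h i)

theorem Tw_eq {N : ℕ} (h : N ≤ m) (w : Perm (Fin (N + 1))) :
    Tw m w = Q27.Hk.T (fun i => T (Fin.castLE h i)) w := by
  have h1 : ∃ ω : List (Fin N), IsReduced ω w := by
    obtain ⟨ω, h1, h2⟩ := Q27.Hk.exists_word w
    exact ⟨ω, h1, by rw [len_eq, h2]⟩
  unfold Tw
  rw [dif_pos h1]
  exact word_eq h h1.choose_spec

theorem castLE_self : (fun i : Fin m => (T (Fin.castLE (le_refl m) i) : H m)) = T := by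
  funext i
  rfl

theorem Tw_eq' (w : Perm (Fin (m + 1))) : Tw m w = Q27.Hk.T T w := Tw_eq (le_refl m) w

theorem commute_T {N : ℕ} (h : N ≤ m) {j : Fin m} (hj : N < j.val) (w : Perm (Fin (N + 1))) :
    Q27.Hk.T (fun i => T (Fin.castLE h i)) w * T j =
      T j * Q27.Hk.T (fun i => T (Fin.castLE h i)) w := by
  obtain ⟨ω, h1, h2⟩ := Q27.Hk.exists_word w
  rw [← h1, (rel' h).T_word (by rw [h2, h1])]
  clear h1 h2
  induction ω with
  | nil => rw [List.map_nil, List.prod_nil, one_mul, mul_one]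
  | cons i ω ih =>
    rw [List.map_cons, List.prod_cons, mul_assoc, ih, ← mul_assoc,
      (rel m).comm (Fin.castLE h i) j (by rw [Fin.val_castLE]; omega), mul_assoc]

/-- Elements which commute with the generators commute with everything. -/
theorem commute_all {R : Type*} [Ring R] [Algebra K R] (f : H m →ₐ[K] R) {z : R}
    (hz : ∀ i, z * f (T i) = f (T i) * z) (x : H m) : z * f x = f x * z := by
  obtain ⟨y, rfl⟩ := RingQuot.mkAlgHom_surjective K (HRel m) x
  induction y using FreeAlgebra.induction with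
  | grade0 r =>
    rw [AlgHom.commutes, AlgHom.commutes]
    exact (Algebra.commutes r z).symm
  | grade1 i => exact hz i
  | mul a b ha hb => rw [map_mul, map_mul, ← mul_assoc, ha, mul_assoc, hb, mul_assoc]
  | add a b ha hb => rw [map_add, map_add, mul_add, add_mul, ha, hb]

theorem hpos (p : Polynomial ℕ) (hp : p.eval 1 ≠ 0) :
    p.eval₂ (Nat.castRingHom K) q ≠ 0 := by
  have h1 : (Polynomial.eval₂RingHom (Nat.castRingHom K) q) =
      (algebraMap (Polynomial ℂ) K).comp (Polynomial.mapRingHom (Nat.castRingHom ℂ)) := by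
    apply Polynomial.ringHom_ext'
    · exact Subsingleton.elim _ _
    · simp [q]
  have h2 : p.eval₂ (Nat.castRingHom K) q =
      algebraMap (Polynomial ℂ) K (p.map (Nat.castRingHom ℂ)) := by
    have := congrArg (fun f => f p) h1
    simpa using this
  rw [h2]
  intro h3
  have h4 : p.map (Nat.castRingHom ℂ) = 0 := by
    apply (IsFractionRing.injective (Polynomial ℂ) K)
    rw [h3, map_zero]
  rw [Polynomial.map_eq_zero_iff (fun a b hab => by simpa using hab)] at h4
  rw [h4] at hp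
  simp at hp

theorem q_ne : q ≠ 0 := RatFunc.X_ne_zero

theorem q_add_ne : q + q⁻¹ ≠ 0 := by
  intro h
  have h1 := hpos (Polynomial.X ^ 2 + 1) (by simp)
  apply h1
  rw [Polynomial.eval₂_add, Polynomial.eval₂_pow, Polynomial.eval₂_X, Polynomial.eval₂_one]
  have h2 : q ^ 2 + 1 = q * (q + q⁻¹) := by
    rw [mul_add, mul_inv_cancel₀ q_ne]
    ring
  rw [h2, h, mul_zero]

theorem comp_ms {N : ℕ} {μ : Fin (N + 1) → ℕ} (hμ : ∀ k, 1 ≤ μ k) (hm : ∑ k, μ k = m + 1) :
    Q27.Hk.Comp N m (ms μ) where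
  zero := by
    unfold ms
    rw [filter_false_of_mem (by intro x _; omega), sum_empty]
  lt k hk := by
    have h1 : univ.filter (fun l : Fin (N + 1) => l.val < k + 1) =
        insert ⟨k, by omega⟩ (univ.filter (fun l : Fin (N + 1) => l.val < k)) := by
      ext l
      simp only [mem_filter, mem_univ, true_and, mem_insert, Fin.ext_iff]
      omega
    unfold ms
    rw [h1, sum_insert (by simp)]
    have := hμ ⟨k, by omega⟩
    omega
  last := by
    unfold ms
    rw [filter_true_of_mem (by intro x _; exact x.isLt), hm]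

theorem cw_prod (k r : ℕ) : ((List.range' (k + 1) r).reverse.map (Tn m)).prod =
    ((Q27.Hk.cw k r).map (fun i => Tn m (i + 1))).prod := by
  induction r with
  | zero => rfl
  | succ r ih =>
    rw [List.range'_1_concat, List.reverse_append, List.reverse_singleton, List.singleton_append,
      List.map_cons, List.prod_cons, ih, Q27.Hk.cw, List.map_cons, List.prod_cons]
    congr 2
    omega

theorem gw_prod (M : ℕ → ℕ) : ∀ n k : ℕ, ((List.range' k n).map fun k =>
    ((List.range' (k + 1) (M k - k)).reverse.map (Tn m)).prod).prod =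
    ((Q27.Hk.gw M k n).map (fun i => Tn m (i + 1))).prod := by
  intro n
  induction n with
  | zero => intro k; rfl
  | succ n ih =>
    intro k
    rw [List.range'_succ, List.map_cons, List.prod_cons, ih, Q27.Hk.gw, List.map_append,
      List.prod_append, cw_prod]

theorem Tgamma_eq {N : ℕ} {μ : Fin (N + 1) → ℕ} {ω : List (Fin m)}
    (hω : ω.map Fin.val = Q27.Hk.gw (ms μ) 1 N) : Tgamma m μ = (ω.map T).prod := by
  unfold Tgamma
  rw [gw_prod, ← hω, List.map_map]
  congr 1
  apply List.map_congr_left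
  intro i _
  exact Tn_succ i

theorem par_univ (w : Perm (Fin (m + 1))) : w ∈ Q27.Hk.par (Set.univ : Set (Fin m)) := by
  obtain ⟨ω, h1, -⟩ := Q27.Hk.exists_word w
  rw [← h1]
  clear h1
  induction ω with
  | nil => exact one_mem _
  | cons i ω ih =>
    rw [Q27.Hk.wp_cons]
    exact mul_mem (Q27.Hk.s_mem_par (Set.mem_univ i)) ih

theorem anti_eq {N : ℕ} (h : N ≤ m) : anti m N = (q ^ (N * (N + 1) / 2)) •
    Q27.Hk.Esum (fun i : Fin N => (T (Fin.castLE h i) : H m)) (-q⁻¹) Set.univ := by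
  classical
  unfold anti Q27.Hk.Esum
  rw [smul_sum, filter_true_of_mem (fun w _ => par_univ w)]
  apply sum_congr rfl
  intro w _
  rw [smul_smul, Tw_eq h, len_eq, zpow_sub₀ q_ne, zpow_natCast, zpow_natCast, neg_pow q⁻¹,
    inv_pow]
  congr 1
  ring

theorem ha1 : q * q = 1 + (q - q⁻¹) * q := by
  rw [sub_mul, inv_mul_cancel₀ q_ne]
  ring

theorem ha2 : (-q⁻¹) * (-q⁻¹) = 1 + (q - q⁻¹) * (-q⁻¹) := by
  have h : q * q⁻¹ = 1 := mul_inv_cancel₀ q_ne
  linear_combination h

/-- **Q1.** For every composition `μ = (μ_1, …, μ_{N+1})` of `n = m + 1` the element `X^μ_N` is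
central in `e_μ H(S_n) e_μ`. The first three parts say that the objects are well defined:
`T_w` is independent of the reduced word, `T_{γ_μ}` is invertible and `e_μ` is an idempotent with
`T_i e_μ = e_μ T_i = q e_μ` for `i ∈ J`. -/
theorem result (N m : ℕ) (μ : Fin (N + 1) → ℕ) (hμ : ∀ k, 1 ≤ μ k) (hm : ∑ k, μ k = m + 1) :
    (∀ (w : Perm (Fin (m + 1))) (ω : List (Fin m)), IsReduced ω w → Tw m w = (ω.map T).prod) ∧
    IsUnit (Tgamma m μ) ∧
    (e m μ * e m μ = e m μ ∧ ∀ i ∈ J m μ, T i * e m μ = q • e m μ ∧ e m μ * T i = q • e m μ) ∧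
    ∀ h ∈ {x : H m | ∃ a : H m, x = e m μ * a * e m μ}, X m μ * h = h * X m μ := by
  classical
  have R := rel m
  have C := comp_ms hμ hm
  have hNm := le_of_sum hμ hm
  obtain ⟨ω, h1, h2, h3, h4⟩ := Q27.Hk.exists_gam C
  set E := Q27.Hk.Esum (T : Fin m → H m) q (J m μ) with hE
  set Y := Q27.Hk.Esum (fun i : Fin N => (T (Fin.castLE hNm i) : H m)) (-q⁻¹) Set.univ with hY
  have hE1 : ∀ i ∈ J m μ, E * T i = q • E := fun i hi => R.Esum_mul_t ha1 hi
  have hE2 : ∀ i ∈ J m μ, T i * E = q • E := fun i hi => R.t_mul_Esum ha1 hi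
  have S : Q27.Hk.Setup q (T : Fin m → H m) N (J m μ) (Q27.Hk.wp ω) E Y :=
    { rel := R
      hq := q_add_ne
      E1 := hE1
      E2 := hE2
      Y1 := fun j hj => (rel' hNm).t_mul_Esum ha2 (i := ⟨j.val, hj⟩) (Set.mem_univ _)
      Y2 := fun j hj => (rel' hNm).Esum_mul_t ha2 (i := ⟨j.val, hj⟩) (Set.mem_univ _)
      Y3 := by
        intro j hj
        rw [hY]
        unfold Q27.Hk.Esum
        rw [sum_mul, mul_sum]
        apply sum_congr rfl
        intro w _
        rw [smul_mul_assoc, mul_smul_comm, commute_T hNm hj w]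
      G := by
        intro w hw hJ
        exact Q27.Hk.gam_unique C h3 h4 hw hJ
      hγ := h3 }
  -- the central element
  set Z := Q27.Hk.Zs (T : Fin m → H m) N Y with hZ
  have hZc : ∀ x : H m, Z * x = x * Z := by
    intro x
    exact commute_all (AlgHom.id K (H m)) (z := Z) (fun i => (R.t_Zs S.nice i).symm) x
  obtain ⟨c, hc⟩ := S.main hpos rfl h2
  -- the idempotent
  set κ : K := ∑ w ∈ univ.filter (fun w => w ∈ Smu m μ), q ^ (2 * len w) with hκ
  have hκ' : κ = ∑ w ∈ univ.filter (fun w => w ∈ Q27.Hk.par (J m μ)),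
      q ^ (2 * Q27.Hk.inv w) := by
    rw [hκ]
    apply sum_congr rfl
    intro w _
    rw [len_eq]
  have hEE : ∀ x : H m, (∀ i ∈ J m μ, T i * x = q • x) → E * x = κ • x := by
    intro x hx
    rw [hκ']
    exact R.Esum_mul hx
  have hκ0 : κ ≠ 0 := by
    have h5 := hpos (∑ w ∈ univ.filter (fun w => w ∈ Q27.Hk.par (J m μ)),
      (Polynomial.X : Polynomial ℕ) ^ (2 * Q27.Hk.inv w)) (by
        rw [Polynomial.eval_finsetSum]
        simp only [Polynomial.eval_pow, Polynomial.eval_X, one_pow, sum_const, smul_eq_mul,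
          mul_one]
        apply Finset.card_ne_zero_of_mem (a := 1)
        exact mem_filter.2 ⟨mem_univ _, one_mem _⟩)
    rw [Polynomial.eval₂_finsetSum] at h5
    simp only [Polynomial.eval₂_pow, Polynomial.eval₂_X] at h5
    rw [hκ']
    exact h5
  have he : e m μ = κ⁻¹ • E := by
    unfold e
    rw [← hκ, hE]
    congr 1
    unfold Q27.Hk.Esum
    apply sum_congr rfl
    intro w _
    rw [len_eq, Tw_eq']
  -- the inverse
  have hTg := Tgamma_eq h1
  obtain ⟨hi1, hi2⟩ := R.word_inv ω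
  set U := (ω.reverse.map (Q27.Hk.ti q T)).prod with hU
  have hunit : IsUnit (Tgamma m μ) := by
    rw [hTg]
    exact ⟨⟨_, U, hi1, hi2⟩, rfl⟩
  have hinv : Ring.inverse (Tgamma m μ) = U := by
    rw [hTg]
    exact Ring.inverse_unit (⟨(ω.map T).prod, U, hi1, hi2⟩ : (H m)ˣ)
  have hX : X m μ = (κ⁻¹ * (q ^ (N * (N + 1) / 2)) * κ⁻¹ * c) • (E * Z * E) := by
    unfold X
    rw [hinv, hTg, he, anti_eq hNm, ← hY]
    have e1 : (κ⁻¹ • E * (ω.map T).prod * (q ^ (N * (N + 1) / 2)) • Y * U * κ⁻¹ • E) =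
        (κ⁻¹ * (q ^ (N * (N + 1) / 2)) * κ⁻¹) • (E * (ω.map T).prod * Y * U * E) := by
      simp only [smul_mul_assoc, mul_smul_comm, smul_smul]
      congr 1
      ring
    rw [e1, hc, smul_smul]
  refine ⟨?_, hunit, ⟨?_, ?_⟩, ?_⟩
  · intro w ω' hω'
    rw [Tw_eq']
    refine (word_eq (le_refl m) hω').symm.trans ?_
    congr 1
    apply List.map_congr_left
    intro i _
    exact Tn_succ i
  · rw [he, smul_mul_assoc, mul_smul_comm, hEE E hE2, smul_smul κ⁻¹ κ, inv_mul_cancel₀ hκ0,
      one_smul]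
  · intro i hi
    rw [he, mul_smul_comm, hE2 i hi, smul_mul_assoc, hE1 i hi, smul_comm]
    exact ⟨rfl, rfl⟩
  · rintro h ⟨a, rfl⟩
    rw [hX, he]
    simp only [smul_mul_assoc, mul_smul_comm, smul_smul]
    have key : (E * Z * E) * (E * a * E) = (E * a * E) * (E * Z * E) := by
      calc (E * Z * E) * (E * a * E) = E * Z * (E * E) * a * E := by simp only [mul_assoc]
        _ = κ • (E * Z * E * a * E) := by
            rw [hEE E hE2]
            simp only [smul_mul_assoc, mul_smul_comm]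
        _ = κ • (Z * (E * E) * a * E) := by rw [← hZc E]; simp only [mul_assoc]
        _ = κ • (κ • (Z * (E * a * E))) := by
            rw [hEE E hE2]
            simp only [smul_mul_assoc, mul_smul_comm, mul_assoc]
        _ = κ • (κ • (E * a * E * Z)) := by rw [hZc]
        _ = κ • (E * a * (E * E) * Z) := by
            rw [hEE E hE2]
            simp only [smul_mul_assoc, mul_smul_comm, mul_assoc]
        _ = κ • (E * a * E * Z * E) := by
            rw [mul_assoc (E * a * E) Z, hZc E]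
            simp only [mul_assoc]
        _ = E * a * (E * E) * Z * E := by
            rw [hEE E hE2]
            simp only [smul_mul_assoc, mul_smul_comm]
        _ = _ := by simp only [mul_assoc]
    rw [mul_comm]
    have := key
    simp only [mul_assoc] at this ⊢
    rw [this]

end Pool.Agent.Results.MP_613bd6_al.Central
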